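import Pool.Agent.Lib.MP_5349a4_pr.M.Iface4
import Pool.Agent.Lib.MP_5349a4_pr.M.Base

/-!
Module FORE: the invasion trees of the end points of a forest edge which is not bad.
-/

set_option autoImplicit false
open MeasureTheory Set
open scoped ENNReal NNReal

namespace Pool.Agent.Lib.MP_5349a4_pr.H15.Fore

variable {d : ℕ}

/-! ### minimal pairs -/

/-- `(a,p)` is a shortest pair leaving `R` -/
structure MP (S R : Set (Eu d)) (a p : Eu d) : Prop where
  ha : a ∈ R
  hp : p ∈ S \ R
  hmin : ∀ b ∈ R, ∀ q ∈ S \ R, dist a p ≤ dist b q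

lemma mp_exists {S R : Set (Eu d)} (hLF : LF S) (hS : S.Infinite) (hR : R.Finite)
    (hne : R.Nonempty) : ∃ a p, MP S R a p := by
  obtain ⟨a0, ha0⟩ := hne
  obtain ⟨p0, hp0, hp0'⟩ := (hS.diff hR).nonempty
  set D := dist a0 p0 with hD
  -- the finite set of candidates
  have hbd : Bornology.IsBounded (⋃ b ∈ R, Metric.closedBall b D) :=
    (Bornology.isBounded_biUnion hR).2 fun b _ => Metric.isBounded_closedBall
  have hfin : (S ∩ ⋃ b ∈ R, Metric.closedBall b D).Finite := hLF _ hbd
  set T : Set (Eu d × Eu d) := {q | q.1 ∈ R ∧ q.2 ∈ S \ R ∧ dist q.1 q.2 ≤ D} with hT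
  have hTfin : T.Finite := by
    refine (hR.prod hfin).subset ?_
    rintro ⟨a, p⟩ ⟨h1, h2, h3⟩
    refine ⟨h1, h2.1, ?_⟩
    simp only [Set.mem_iUnion, Metric.mem_closedBall]
    exact ⟨a, h1, by rw [dist_comm]; exact h3⟩
  have hTne : T.Nonempty := ⟨(a0, p0), ha0, ⟨hp0, hp0'⟩, le_refl _⟩
  obtain ⟨⟨a, p⟩, hap, hmin⟩ := Set.exists_min_image T (fun q => dist q.1 q.2) hTfin hTne
  refine ⟨a, p, hap.1, hap.2.1, ?_⟩
  intro b hb q hq
  by_cases h : dist b q ≤ D
  · exact hmin (b, q) ⟨hb, hq, h⟩
  · push Not at h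
    exact hap.2.2.trans h.le

lemma infE_ge {R : Set (Eu d)} {q : Eu d} {t : ℝ≥0∞} (h : ∀ b ∈ R, t ≤ edist q b) :
    t ≤ Metric.infEDist q R := Metric.le_infEDist.2 h

lemma inv_succ' {S : Set (Eu d)} {x : Eu d} {k : ℕ} {a p : Eu d} (hG : Gen S)
    (hsub : inv S x k ⊆ S) (hfin : (inv S x k).Finite) (h : MP S (inv S x k) a p) :
    inv S x (k + 1) = insert p (inv S x k) := by
  set R := inv S x k with hR
  have hle : ∀ q ∈ S \ R, edist p a ≤ Metric.infEDist q R := by
    intro q hq
    refine infE_ge fun b hb => ?_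
    rw [edist_dist, edist_dist]
    refine ENNReal.ofReal_le_ofReal ?_
    rw [dist_comm p a, dist_comm q b]
    exact h.hmin b hb q hq
  have hp : Metric.infEDist p R = edist p a :=
    le_antisymm (Metric.infEDist_le_edist_of_mem h.ha) (hle p h.hp)
  have hinf : (⨅ q ∈ S \ R, Metric.infEDist q R) = edist p a := by
    refine le_antisymm ?_ (le_iInf₂ hle)
    rw [← hp]
    exact iInf₂_le p h.hp
  show R ∪ {q | q ∈ S \ R ∧ Metric.infEDist q R = ⨅ q ∈ S \ R, Metric.infEDist q R} = _
  rw [hinf]
  ext q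
  simp only [Set.mem_union, Set.mem_setOf_eq, Set.mem_insert_iff]
  constructor
  · rintro (hq | ⟨hq, hq2⟩)
    · exact Or.inr hq
    · left
      obtain ⟨b, hb, hb2⟩ := hfin.isCompact.exists_infEDist_eq_edist ⟨a, h.ha⟩ q
      rw [hq2] at hb2
      have hd : dist p a = dist q b := by
        rw [edist_dist, edist_dist] at hb2
        exact (ENNReal.ofReal_eq_ofReal_iff dist_nonneg dist_nonneg).1 hb2
      have hpa : p ≠ a := fun h0 => h.hp.2 (h0 ▸ h.ha)
      have hqb : q ≠ b := fun h0 => hq.2 (h0 ▸ hb)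
      rcases hG p h.hp.1 a (hsub h.ha) q hq.1 b (hsub hb) hpa hqb hd with h1 | h1
      · exact h1.1.symm
      · exact absurd (h1.1 ▸ hb) h.hp.2
  · rintro (rfl | hq)
    · exact Or.inr ⟨h.hp, hp⟩
    · exact Or.inl hq

/-- basic properties of the invasion -/
lemma inv_basic {S : Set (Eu d)} (hLF : LF S) (hS : S.Infinite) (hG : Gen S) {x : Eu d}
    (hx : x ∈ S) (k : ℕ) : inv S x k ⊆ S ∧ (inv S x k).Finite ∧ x ∈ inv S x k ∧
      (inv S x k).ncard = k + 1 := by
  induction k with
  | zero =>
    refine ⟨?_, ?_, ?_, ?_⟩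
    · intro z hz
      have : z = x := hz
      rw [this]; exact hx
    · exact Set.finite_singleton x
    · exact rfl
    · exact Set.ncard_singleton x
  | succ k ih =>
    obtain ⟨h1, h2, h3, h4⟩ := ih
    obtain ⟨a, p, hap⟩ := mp_exists hLF hS h2 ⟨x, h3⟩
    rw [inv_succ' hG h1 h2 hap]
    refine ⟨Set.insert_subset hap.hp.1 h1, h2.insert p, Or.inr h3, ?_⟩
    rw [Set.ncard_insert_of_notMem hap.hp.2 h2, h4]

lemma inv_mono (S : Set (Eu d)) (x : Eu d) {j k : ℕ} (h : j ≤ k) : inv S x j ⊆ inv S x k := by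
  induction k, h using Nat.le_induction with
  | base => exact subset_refl _
  | succ k _ ih => exact ih.trans Set.subset_union_left

lemma tree_inf {S : Set (Eu d)} (hLF : LF S) (hS : S.Infinite) (hG : Gen S) {x : Eu d}
    (hx : x ∈ S) : (tree S x).Infinite := by
  intro hfin
  have h1 : inv S x (tree S x).ncard ⊆ tree S x := Set.subset_iUnion _ _
  have h2 := Set.ncard_le_ncard h1 hfin
  rw [(inv_basic hLF hS hG hx _).2.2.2] at h2
  omega

/-! ### open clusters -/

lemma och_self (S : Set (Eu d)) (r : ℝ) (x : Eu d) : x ∈ och S r x :=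
  Relation.ReflTransGen.refl

lemma och_sub {S : Set (Eu d)} {r : ℝ} {x : Eu d} (hx : x ∈ S) : och S r x ⊆ S := by
  intro z hz
  rcases Relation.ReflTransGen.cases_tail hz with h | ⟨_, _, h⟩
  · rw [h]; exact hx
  · exact h.2

lemma och_step {S : Set (Eu d)} {r : ℝ} {x a b : Eu d} (ha : a ∈ och S r x) (hb : b ∈ S)
    (h : dist a b < r) : b ∈ och S r x :=
  Relation.ReflTransGen.tail ha ⟨h, hb⟩

lemma och_symm {S : Set (Eu d)} {r : ℝ} {x y : Eu d} (hx : x ∈ S) (h : y ∈ och S r x) :
    x ∈ och S r y := by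
  induction h with
  | refl => exact Relation.ReflTransGen.refl
  | @tail b c hb hbc ih =>
    have hbS : b ∈ S := och_sub hx hb
    exact Relation.ReflTransGen.head ⟨by rw [dist_comm]; exact hbc.1, hbS⟩ ih

lemma och_trans {S : Set (Eu d)} {r : ℝ} {x y z : Eu d} (h1 : y ∈ och S r x)
    (h2 : z ∈ och S r y) : z ∈ och S r x := Relation.ReflTransGen.trans h1 h2

/-- first exit -/
lemma exit_pair {S R : Set (Eu d)} {r : ℝ} {x z : Eu d} (hx : x ∈ R) (hz : z ∈ och S r x)
    (hzR : z ∉ R) : ∃ a ∈ R, ∃ b ∈ S \ R, dist a b < r := by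
  induction hz with
  | refl => exact absurd hx hzR
  | @tail b c hb hbc ih =>
    by_cases hbR : b ∈ R
    · exact ⟨b, hbR, c, ⟨hbc.2, hzR⟩, hbc.1⟩
    · exact ih hbR

section edge
variable {S : Set (Eu d)} (hLF : LF S) (hS : S.Infinite) (hG : Gen S)
include hLF hS hG

/-- as long as the invasion stays in the open cluster and has not filled it, the next point is in
the cluster -/
lemma next_in {r : ℝ} {x : Eu d} (hx : x ∈ S) {k : ℕ} (hsub : inv S x k ⊆ och S r x)
    (hne : inv S x k ≠ och S r x) :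
    ∃ a p, MP S (inv S x k) a p ∧ dist a p < r ∧ p ∈ och S r x ∧
      inv S x (k + 1) = insert p (inv S x k) := by
  obtain ⟨h1, h2, h3, h4⟩ := inv_basic hLF hS hG hx k
  obtain ⟨z, hz, hzR⟩ : ∃ z ∈ och S r x, z ∉ inv S x k := by
    by_contra hcon
    push Not at hcon
    exact hne (hsub.antisymm hcon)
  obtain ⟨a0, ha0, b0, hb0, hab⟩ := exit_pair h3 hz hzR
  obtain ⟨a, p, hap⟩ := mp_exists hLF hS h2 ⟨x, h3⟩
  have hlt : dist a p < r := (hap.hmin a0 ha0 b0 hb0).trans_lt hab
  exact ⟨a, p, hap, hlt, och_step (hsub hap.ha) hap.hp.1 hlt, inv_succ' hG h1 h2 hap⟩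

/-- the invasion stays in the open cluster until it is filled -/
lemma stay {r : ℝ} {x : Eu d} (hx : x ∈ S) (k : ℕ)
    (hne : ∀ i < k, inv S x i ≠ och S r x) : inv S x k ⊆ och S r x := by
  induction k with
  | zero =>
    intro z hz
    have : z = x := hz
    rw [this]; exact och_self S r x
  | succ k ih =>
    have h1 := ih fun i hi => hne i (by omega)
    obtain ⟨a, p, -, -, hp, hk⟩ := next_in hLF hS hG hx h1 (hne k (by omega))
    rw [hk]
    exact Set.insert_subset hp h1

lemma ne_of_lt {r : ℝ} {x : Eu d} (hx : x ∈ S) (hfin : (och S r x).Finite) {i : ℕ}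
    (hi : i + 1 < (och S r x).ncard) : inv S x i ≠ och S r x := by
  intro h
  have h4 := (inv_basic hLF hS hG hx i).2.2.2
  rw [h] at h4
  omega

lemma fill {r : ℝ} {x : Eu d} (hx : x ∈ S) (hfin : (och S r x).Finite) :
    inv S x ((och S r x).ncard - 1) = och S r x := by
  have hpos : 0 < (och S r x).ncard := (Set.ncard_pos hfin).2 ⟨x, och_self S r x⟩
  have h1 := stay hLF hS hG hx ((och S r x).ncard - 1)
    fun i hi => ne_of_lt hLF hS hG hx hfin (by omega)
  refine Set.eq_of_subset_of_ncard_le h1 ?_ hfin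
  rw [(inv_basic hLF hS hG hx _).2.2.2]
  omega

variable {x y : Eu d} (he : edge S x y)
include he

lemma edge_symm : edge S y x := by
  obtain ⟨h1, h2, h3, h4⟩ := he
  refine ⟨h2, h1, h3.symm, ?_⟩
  intro h
  rw [dist_comm y x] at h
  exact h4 (och_symm h2 h)

lemma disj : ∀ z ∈ och S (dist x y) x, z ∉ och S (dist x y) y := by
  intro z hz hz2
  exact he.2.2.2 (och_trans hz (och_symm he.2.1 hz2))

lemma far : ∀ b ∈ och S (dist x y) x, ∀ q ∈ S \ och S (dist x y) x, dist x y ≤ dist b q := by
  intro b hb q hq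
  by_contra hcon
  push Not at hcon
  exact hq.2 (och_step hb hq.1 hcon)

/-- lockstep -/
lemma lock (hK : (och S (dist x y) x).Finite) (k : ℕ)
    (hne : ∀ i < k, inv S y i ≠ och S (dist x y) y) :
    inv S x ((och S (dist x y) x).ncard + k) = och S (dist x y) x ∪ inv S y k := by
  obtain ⟨hx, hy, hxy, hnot⟩ := id he
  set K := och S (dist x y) x with hKdef
  have hKS : K ⊆ S := och_sub hx
  have hpos : 0 < K.ncard := (Set.ncard_pos hK).2 ⟨x, och_self S _ x⟩
  induction k with
  | zero =>
    have h1 := fill hLF hS hG hx hK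
    obtain ⟨n, hn⟩ : ∃ n, K.ncard = n + 1 := ⟨K.ncard - 1, by omega⟩
    rw [hn] at h1 ⊢
    have h1' : inv S x n = K := h1
    have hmp : MP S (inv S x n) x y := by
      rw [h1']
      exact ⟨och_self S _ x, ⟨hy, hnot⟩, far hLF hS hG he⟩
    obtain ⟨b1, b2, b3, b4⟩ := inv_basic hLF hS hG hx n
    rw [Nat.add_zero, inv_succ' hG b1 b2 hmp, h1']
    show insert y K = K ∪ {y}
    rw [Set.union_singleton]
  | succ k ih =>
    have ih' := ih fun i hi => hne i (by omega)
    have hst := stay hLF hS hG hy k fun i hi => hne i (by omega)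
    obtain ⟨a, p, hap, hlt, hpK, hsucc⟩ := next_in hLF hS hG hy hst (hne k (by omega))
    obtain ⟨b1, b2, b3, b4⟩ := inv_basic hLF hS hG hx (K.ncard + k)
    have hmp : MP S (inv S x (K.ncard + k)) a p := by
      rw [ih']
      refine ⟨Or.inr hap.ha, ⟨hap.hp.1, ?_⟩, ?_⟩
      · rintro (h | h)
        · exact disj hLF hS hG he p h hpK
        · exact hap.hp.2 h
      · rintro b (hb | hb) q hq
        · exact hlt.le.trans (far hLF hS hG he b hb q ⟨hq.1, fun h => hq.2 (Or.inl h)⟩)
        · exact hap.hmin b hb q ⟨hq.1, fun h => hq.2 (Or.inr h)⟩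
    rw [← Nat.add_assoc, inv_succ' hG b1 b2 hmp, ih', hsucc, Set.union_insert]

/-- main case: the open cluster of `x` is finite -/
lemma main (hK : (och S (dist x y) x).Finite) :
    (tree S x \ tree S y).Finite ∧ (tree S y \ tree S x).Finite := by
  obtain ⟨hx, hy, hxy, hnot⟩ := id he
  set K := och S (dist x y) x with hKdef
  by_cases hK' : (och S (dist x y) y).Finite
  · -- both finite: the trees are equal
    have hposK : 0 < K.ncard := (Set.ncard_pos hK).2 ⟨x, och_self S _ x⟩
    have hposK' : 0 < (och S (dist x y) y).ncard := (Set.ncard_pos hK').2 ⟨y, och_self S _ y⟩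
    have hcomm : dist y x = dist x y := dist_comm y x
    have h1 := lock hLF hS hG he hK ((och S (dist x y) y).ncard - 1)
      fun i hi => ne_of_lt hLF hS hG hy hK' (by omega)
    rw [fill hLF hS hG hy hK'] at h1
    have he' := edge_symm hLF hS hG he
    have h2 := lock hLF hS hG he' (by rw [hcomm]; exact hK') (K.ncard - 1)
      (by
        rw [hcomm]
        exact fun i hi => ne_of_lt hLF hS hG hx hK (show i + 1 < K.ncard by omega))
    rw [hcomm, fill hLF hS hG hx hK] at h2
    have hj : K.ncard + ((och S (dist x y) y).ncard - 1) =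
        (och S (dist x y) y).ncard + (K.ncard - 1) := by omega
    set j := K.ncard + ((och S (dist x y) y).ncard - 1) with hjdef
    rw [← hj] at h2
    have h3 : inv S x j = inv S y j := by
      rw [h1, h2, Set.union_comm]
    have h4 : ∀ i, inv S x (j + i) = inv S y (j + i) := by
      intro i
      induction i with
      | zero => exact h3
      | succ i ih =>
        show inv S x (j + i) ∪ {p | p ∈ S \ inv S x (j + i) ∧
          Metric.infEDist p (inv S x (j + i)) = ⨅ q ∈ S \ inv S x (j + i),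
            Metric.infEDist q (inv S x (j + i))} = _
        rw [ih]
        rfl
    have h5 : tree S x = tree S y := by
      apply Set.Subset.antisymm
      · refine Set.iUnion_subset fun i => ?_
        refine (inv_mono S x (Nat.le_add_left i j)).trans ?_
        rw [h4]
        exact Set.subset_iUnion _ _
      · refine Set.iUnion_subset fun i => ?_
        refine (inv_mono S y (Nat.le_add_left i j)).trans ?_
        rw [← h4]
        exact Set.subset_iUnion _ _
    rw [h5, Set.sdiff_self]
    exact ⟨Set.finite_empty, Set.finite_empty⟩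
  · -- the cluster of y is infinite
    have hlock : ∀ k, inv S x (K.ncard + k) = K ∪ inv S y k := by
      intro k
      refine lock hLF hS hG he hK k fun i _ h => ?_
      exact hK' (h ▸ (inv_basic hLF hS hG hy i).2.1)
    constructor
    · refine hK.subset ?_
      rintro z ⟨hz, hz2⟩
      obtain ⟨i, hi⟩ := Set.mem_iUnion.1 hz
      have h6 : z ∈ inv S x (K.ncard + i) := inv_mono S x (Nat.le_add_left i _) hi
      rw [hlock] at h6
      rcases h6 with h6 | h6
      · exact h6
      · exact absurd (Set.mem_iUnion.2 ⟨i, h6⟩) hz2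
    · have h7 : tree S y \ tree S x = ∅ := by
        rw [Set.sdiff_eq_empty]
        refine Set.iUnion_subset fun i => ?_
        have h8 : inv S y i ⊆ inv S x (K.ncard + i) := by
          rw [hlock]; exact Set.subset_union_right
        exact h8.trans (Set.subset_iUnion _ _)
      rw [h7]
      exact Set.finite_empty

end edge

/-- Module FORE. -/
theorem fore : ForeStatement := by
  intro d S hLF hS hG
  refine ⟨fun x hx => tree_inf hLF hS hG hx, ?_⟩
  intro x y he hbad
  by_cases hK : (och S (dist x y) x).Finite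
  · exact main hLF hS hG he hK
  · have hK' : (och S (dist x y) y).Finite := by
      by_contra h
      exact hbad ⟨he, hK, h⟩
    have he' := edge_symm hLF hS hG he
    have h := main hLF hS hG he' (by rw [dist_comm]; exact hK')
    exact ⟨h.2, h.1⟩

end Pool.Agent.Lib.MP_5349a4_pr.H15.Fore
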