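import Pool.Agent.Lib.MP_5349a4_pr.M.Iface4
import Pool.Agent.Lib.MP_5349a4_pr.M.Base

/-!
Module INVSC: scaling, translation and rotation of the invasion.
-/

set_option autoImplicit false
open MeasureTheory Set
open scoped ENNReal NNReal

namespace Pool.Agent.Lib.MP_5349a4_pr.H15

variable {d : ℕ}

lemma infE_image (φ : Eu d → Eu d) {C : ℝ≥0∞} (hC0 : C ≠ 0) (hCt : C ≠ ∞)
    (hd : ∀ x y, edist (φ x) (φ y) = C * edist x y) (K : Set (Eu d)) (p : Eu d) :
    Metric.infEDist (φ p) (φ '' K) = C * Metric.infEDist p K := by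
  unfold Metric.infEDist
  rw [iInf_image, ENNReal.mul_iInf_of_ne hC0 hCt]
  refine iInf_congr fun y => ?_
  rw [ENNReal.mul_iInf_of_ne hC0 hCt]
  exact iInf_congr fun _ => hd p y

lemma inv_image (φ : Eu d → Eu d) (hφ : Function.Injective φ) {C : ℝ≥0∞} (hC0 : C ≠ 0)
    (hCt : C ≠ ∞) (hd : ∀ x y, edist (φ x) (φ y) = C * edist x y) (P : Set (Eu d)) (o : Eu d) :
    ∀ k, inv (φ '' P) (φ o) k = φ '' inv P o k ∧ lab (φ '' P) (φ o) k = C * lab P o k := by
  have hlab : ∀ K : Set (Eu d), (⨅ q ∈ (φ '' P) \ (φ '' K), Metric.infEDist q (φ '' K)) =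
      C * ⨅ q ∈ P \ K, Metric.infEDist q K := by
    intro K
    rw [← Set.image_diff hφ, iInf_image, ENNReal.mul_iInf_of_ne hC0 hCt]
    refine iInf_congr fun y => ?_
    rw [ENNReal.mul_iInf_of_ne hC0 hCt]
    exact iInf_congr fun _ => infE_image φ hC0 hCt hd K y
  intro k
  induction k with
  | zero =>
    refine ⟨by simp [inv], ?_⟩
    unfold lab
    have h0 : inv (φ '' P) (φ o) 0 = φ '' inv P o 0 := by simp [inv]
    rw [h0]
    exact hlab _
  | succ k ih =>
    have h1 : inv (φ '' P) (φ o) (k + 1) = φ '' inv P o (k + 1) := by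
      show inv (φ '' P) (φ o) k ∪ _ = φ '' (inv P o k ∪ _)
      rw [Set.image_union, ih.1]
      congr 1
      ext p
      simp only [Set.mem_setOf_eq, Set.mem_image]
      constructor
      · rintro ⟨hp, hinf⟩
        rw [← Set.image_diff hφ] at hp
        obtain ⟨q, hq, rfl⟩ := hp
        refine ⟨q, ⟨hq, ?_⟩, rfl⟩
        rw [infE_image φ hC0 hCt hd, hlab] at hinf
        exact (ENNReal.mul_right_inj hC0 hCt).1 hinf
      · rintro ⟨q, ⟨hq, hinf⟩, rfl⟩
        refine ⟨?_, ?_⟩
        · rw [← Set.image_diff hφ]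
          exact Set.mem_image_of_mem φ hq
        · rw [infE_image φ hC0 hCt hd, hlab, hinf]
    refine ⟨h1, ?_⟩
    unfold lab
    rw [h1]
    exact hlab _

lemma mem_inv (P : Set (Eu d)) (o : Eu d) (k : ℕ) : o ∈ inv P o k := by
  induction k with
  | zero => exact rfl
  | succ k ih => exact Or.inl ih

lemma inv_diff (P : Set (Eu d)) (o : Eu d) (k : ℕ) : inv (P \ {o}) o k = inv P o k := by
  induction k with
  | zero => rfl
  | succ k ih =>
    have h1 : (P \ {o}) \ inv P o k = P \ inv P o k := by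
      ext z
      simp only [Set.mem_diff, Set.mem_singleton_iff]
      constructor
      · rintro ⟨⟨h1, _⟩, h2⟩
        exact ⟨h1, h2⟩
      · rintro ⟨h1, h2⟩
        refine ⟨⟨h1, ?_⟩, h2⟩
        rintro rfl
        exact h2 (mem_inv P z k)
    show inv (P \ {o}) o k ∪ {p | p ∈ (P \ {o}) \ inv (P \ {o}) o k ∧
      Metric.infEDist p (inv (P \ {o}) o k) = ⨅ q ∈ (P \ {o}) \ inv (P \ {o}) o k,
        Metric.infEDist q (inv (P \ {o}) o k)} = _
    rw [ih, h1]
    rfl

/-- Module INVSC. -/
theorem invsc : InvScStatement := by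
  intro d P o k
  refine ⟨inv_diff P o k, ?_, ?_, ?_, ?_⟩
  · unfold lab
    rw [inv_diff]
    have h1 : (P \ {o}) \ inv P o k = P \ inv P o k := by
      ext z
      simp only [Set.mem_diff, Set.mem_singleton_iff]
      constructor
      · rintro ⟨⟨h1, _⟩, h2⟩
        exact ⟨h1, h2⟩
      · rintro ⟨h1, h2⟩
        refine ⟨⟨h1, ?_⟩, h2⟩
        rintro rfl
        exact h2 (mem_inv P z k)
    rw [h1]
  · intro c hc
    refine inv_image (fun z => c • z) (smul_right_injective _ hc.ne')
      (by simpa using hc) ENNReal.ofReal_ne_top ?_ P o k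
    intro x y
    rw [edist_dist, edist_dist, dist_smul₀, ENNReal.ofReal_mul (norm_nonneg _),
      Real.norm_of_nonneg hc.le]
  · intro v
    have h := inv_image (fun z => z + v) (add_left_injective v) (C := 1) one_ne_zero
      ENNReal.one_ne_top (fun x y => by rw [edist_add_right, one_mul]) P o k
    rw [one_mul] at h
    exact h
  · intro e
    have h := inv_image (fun z => e z) e.injective (C := 1) one_ne_zero
      ENNReal.one_ne_top (fun x y => by rw [e.edist_map, one_mul]) P o k
    rw [one_mul] at h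
    exact h

end Pool.Agent.Lib.MP_5349a4_pr.H15
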