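import Pool.Agent.Lib.MP_5349a4_pr.M.Iface3
import Pool.Agent.Lib.MP_5349a4_pr.M.Base

/-!
Module SHEL (9.2): the mean number of attempts is controlled by the occupation measure.
-/

set_option autoImplicit false
open MeasureTheory Set
open scoped ENNReal NNReal

namespace Pool.Agent.Lib.MP_5349a4_pr.H15.Shel

variable {d : ℕ}

lemma tsum_sub {E : Type} (B : Set E) (g : E → ℝ≥0∞) :
    ∑' x : B, g x = ∑' x, ind (x ∈ B) * g x := by
  rw [tsum_subtype]
  refine tsum_congr fun x => ?_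
  by_cases hx : x ∈ B
  · rw [Set.indicator_of_mem hx, ind_of hx, one_mul]
  · rw [Set.indicator_of_notMem hx, ind_not hx, zero_mul]

/-- the shell relation -/
def Qr (e : ℝ) (u z : Eu d) : Prop := 1 < dist z u ∧ dist z u ≤ 1 + e

/-- sum over the shell -/
noncomputable def sh (e : ℝ) (F : Eu d → ℝ≥0∞) (B : Set (Eu d)) (u : Eu d) : ℝ≥0∞ :=
  ∑' x : B, ind (Qr e u x) * F x

/-- the functional to which the strong Markov property is applied -/
noncomputable def fi (th : ℕ → ℝ) (e : ℝ) (F : Eu d → ℝ≥0∞) (i : ℕ) (A B : Set (Eu d)) : ℝ≥0∞ :=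
  ind (good th A 0 i) * nnew A 0 i (sh e F B)

lemma sh_mono (e : ℝ) (F : Eu d → ℝ≥0∞) {B B' : Set (Eu d)} (h : B ⊆ B') (u : Eu d) :
    sh e F B u ≤ sh e F B' u := by
  unfold sh
  rw [tsum_sub B (fun x => ind (Qr e u x) * F x), tsum_sub B' (fun x => ind (Qr e u x) * F x)]
  exact ENNReal.tsum_le_tsum fun x => mul_le_mul_left (ind_mono fun hx => h hx) _

lemma nnew_mono (P : Set (Eu d)) (o : Eu d) (i : ℕ) {f g : Eu d → ℝ≥0∞} (h : ∀ u, f u ≤ g u) :
    nnew P o i f ≤ nnew P o i g :=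
  ENNReal.tsum_le_tsum fun u => h u

lemma lf_of_finite {P : Set (Eu d)} (h : P.Finite) : LF P := fun _ _ => h.subset Set.inter_subset_left

/-! ### locality -/

lemma newp_congr {P Q : Set (Eu d)} {o : Eu d} {i : ℕ} (h : ∀ j ≤ i, inv Q o j = inv P o j) :
    newp Q o i = newp P o i := by
  cases i with
  | zero => rfl
  | succ i =>
    show inv Q o (i + 1) \ inv Q o i = inv P o (i + 1) \ inv P o i
    rw [h (i + 1) le_rfl, h i (Nat.le_succ i)]

lemma nnew_congr {P Q : Set (Eu d)} {o : Eu d} {i : ℕ} (h : ∀ j ≤ i, inv Q o j = inv P o j)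
    (f : Eu d → ℝ≥0∞) : nnew Q o i f = nnew P o i f := by
  unfold nnew
  rw [newp_congr h]

lemma good_congr {P Q : Set (Eu d)} {o : Eu d} {i : ℕ} (th : ℕ → ℝ)
    (h : ∀ j < i, lab Q o j = lab P o j) : good th Q o i ↔ good th P o i := by
  unfold good
  constructor
  · intro hg j hj
    rw [← h j hj]; exact hg j hj
  · intro hg j hj
    rw [h j hj]; exact hg j hj

lemma fi_loc (hI : InvDStatement) (th : ℕ → ℝ) (i : ℕ) {P : Set (Eu d)}
    (hP : P.Finite) (g : Eu d → ℝ≥0∞) :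
    ind (good th (P ∩ wet P 0 i) 0 i) * nnew (P ∩ wet P 0 i) 0 i g =
      ind (good th P 0 i) * nnew P 0 i g := by
  have hQ : (P ∩ wet P 0 i).Finite := hP.subset Set.inter_subset_left
  obtain ⟨-, -, h3, -⟩ := hI d P (P ∩ wet P 0 i) 0 (lf_of_finite hP) (lf_of_finite hQ)
  obtain ⟨h4, h5, -⟩ := h3 i (by rw [Set.inter_assoc, Set.inter_self])
  rw [nnew_congr h4, ind_congr (good_congr th h5)]

/-! ### the deterministic inequality -/

lemma inv_mono' (P : Set (Eu d)) (o : Eu d) {j k : ℕ} (h : j ≤ k) : inv P o j ⊆ inv P o k := by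
  induction k, h using Nat.le_induction with
  | base => exact subset_refl _
  | succ k _ ih => exact ih.trans Set.subset_union_left

lemma mem_newp_of_mem_inv (P : Set (Eu d)) (o : Eu d) (j : ℕ) {u : Eu d} (hu : u ∈ inv P o j) :
    ∃ i ≤ j, u ∈ newp P o i := by
  induction j with
  | zero => exact ⟨0, le_rfl, hu⟩
  | succ j ih =>
    by_cases h : u ∈ inv P o j
    · obtain ⟨i, hi, hi2⟩ := ih h
      exact ⟨i, by omega, hi2⟩
    · exact ⟨j + 1, le_rfl, hu, h⟩

lemma newp_disj (P : Set (Eu d)) (o : Eu d) {i j : ℕ} (hij : i < j) {x : Eu d}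
    (hi : x ∈ newp P o (i + 1)) (hj : x ∈ newp P o (j + 1)) : False :=
  hj.2 (inv_mono' P o hij hi.1)

lemma det (hI : InvDStatement) (th : ℕ → ℝ) (e : ℝ) (F : Eu d → ℝ≥0∞) (a b : ℕ)
    (he : 0 ≤ e) (hth : ∀ j, a ≤ j → j < b → th j ≤ 1 + e) {P : Set (Eu d)} (hP : P.Finite)
    (h0 : (0 : Eu d) ∉ P) :
    ∑ j ∈ Finset.Ico a b, ind (att P 0 (j + 1) ∧ good th P 0 (j + 1)) * nnew P 0 (j + 1) F ≤
      ∑ i ∈ Finset.range b, fi th e F i (P ∩ wet P 0 i) (P \ wet P 0 i) := by
  obtain ⟨hI1, hI2, -⟩ := hI d P P 0 (lf_of_finite hP) (lf_of_finite hP)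
  have hL : ∑ j ∈ Finset.Ico a b, ind (att P 0 (j + 1) ∧ good th P 0 (j + 1)) *
      nnew P 0 (j + 1) F = ∑' x, ∑ j ∈ Finset.Ico a b,
        ind (att P 0 (j + 1) ∧ good th P 0 (j + 1)) * (ind (x ∈ newp P 0 (j + 1)) * F x) := by
    rw [Summable.tsum_finsetSum fun i _ => ENNReal.summable]
    refine Finset.sum_congr rfl fun j _ => ?_
    rw [ENNReal.tsum_mul_left]
    unfold nnew
    rw [tsum_sub]
  have hR : ∑ i ∈ Finset.range b, fi th e F i (P ∩ wet P 0 i) (P \ wet P 0 i) =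
      ∑' x, ∑ i ∈ Finset.range b, ind (good th P 0 i) * ∑' u : newp P 0 i,
        ind (x ∈ P \ wet P 0 i) * (ind (Qr e u x) * F x) := by
    rw [Summable.tsum_finsetSum fun i _ => ENNReal.summable]
    refine Finset.sum_congr rfl fun i _ => ?_
    unfold fi
    rw [fi_loc hI th i hP, ENNReal.tsum_mul_left, ENNReal.tsum_comm]
    congr 1
    unfold nnew
    refine tsum_congr fun u => ?_
    unfold sh
    rw [tsum_sub (P \ wet P 0 i) (fun x => ind (Qr e u x) * F x)]
  rw [hL, hR]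
  refine ENNReal.tsum_le_tsum fun x => ?_
  by_cases hx : ∃ j ∈ Finset.Ico a b, (att P 0 (j + 1) ∧ good th P 0 (j + 1)) ∧
      x ∈ newp P 0 (j + 1)
  · obtain ⟨j, hj, ⟨hatt, hgood⟩, hxj⟩ := hx
    rw [Finset.mem_Ico] at hj
    have hLx : ∑ j ∈ Finset.Ico a b, ind (att P 0 (j + 1) ∧ good th P 0 (j + 1)) *
        (ind (x ∈ newp P 0 (j + 1)) * F x) ≤ F x := by
      rw [Finset.sum_eq_single_of_mem j (Finset.mem_Ico.2 hj)]
      · calc _ ≤ 1 * (1 * F x) := by
              gcongr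
              · exact ind_le_one _
              · exact ind_le_one _
          _ = F x := by rw [one_mul, one_mul]
      · intro i _ hij
        have : ¬ x ∈ newp P 0 (i + 1) := by
          intro hi
          rcases lt_or_gt_of_ne hij with h | h
          · exact newp_disj P 0 h hi hxj
          · exact newp_disj P 0 h hxj hi
        rw [ind_not this, zero_mul, mul_zero]
    refine hLx.trans ?_
    -- the point `u`
    have hxj' : x ∈ P \ inv P 0 j ∧ Metric.infEDist x (inv P 0 j) = lab P 0 j := by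
      rcases hxj.1 with h | h
      · exact absurd h hxj.2
      · exact h
    have hfin := (hI1 j).2.2
    have hne : (inv P 0 j).Nonempty := by
      refine ⟨0, ?_⟩
      exact inv_mono' P 0 (Nat.zero_le j) (show (0 : Eu d) ∈ inv P 0 0 from rfl)
    obtain ⟨u, hu, hu2⟩ := hfin.isCompact.exists_infEDist_eq_edist hne x
    rw [hxj'.2] at hu2
    have hlab1 : 1 < lab P 0 j := hatt
    have hlab2 : lab P 0 j ≤ ENNReal.ofReal (th j) := hgood j (Nat.lt_succ_self j)
    have hQ : Qr e u x := by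
      rw [hu2] at hlab1 hlab2
      rw [edist_dist] at hlab1 hlab2
      constructor
      · rwa [ENNReal.one_lt_ofReal] at hlab1
      · have h1 : ENNReal.ofReal (dist x u) ≤ ENNReal.ofReal (1 + e) :=
          hlab2.trans (ENNReal.ofReal_le_ofReal (hth j hj.1 hj.2))
        rwa [ENNReal.ofReal_le_ofReal_iff (by linarith)] at h1
    obtain ⟨i, hi, hui⟩ := mem_newp_of_mem_inv P 0 j hu
    have hgi : good th P 0 i := fun k hk => hgood k (by omega)
    have hxw : x ∈ P \ wet P 0 i := by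
      refine ⟨hxj'.1.1, fun hw => ?_⟩
      have h3 : x ∈ P ∩ wet P 0 i := ⟨hxj'.1.1, hw⟩
      rw [hI2 h0 i] at h3
      exact hxj'.1.2 (inv_mono' P 0 hi h3.1)
    calc F x = ind (good th P 0 i) * (ind (x ∈ P \ wet P 0 i) * (ind (Qr e u x) * F x)) := by
          rw [ind_of hgi, ind_of hxw, ind_of hQ, one_mul, one_mul, one_mul]
      _ ≤ ind (good th P 0 i) * ∑' u : newp P 0 i,
            ind (x ∈ P \ wet P 0 i) * (ind (Qr e u x) * F x) := by
          gcongr
          exact ENNReal.le_tsum (f := fun u : newp P 0 i =>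
            ind (x ∈ P \ wet P 0 i) * (ind (Qr e u x) * F x)) ⟨u, hui⟩
      _ ≤ _ := by
          refine Finset.single_le_sum (f := fun i => ind (good th P 0 i) * ∑' u : newp P 0 i,
            ind (x ∈ P \ wet P 0 i) * (ind (Qr e u x) * F x)) (fun _ _ => zero_le) ?_
          rw [Finset.mem_range]; omega
  · have hz : ∑ j ∈ Finset.Ico a b, ind (att P 0 (j + 1) ∧ good th P 0 (j + 1)) *
        (ind (x ∈ newp P 0 (j + 1)) * F x) = 0 := by
      refine Finset.sum_eq_zero fun j hj => ?_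
      by_cases h1 : att P 0 (j + 1) ∧ good th P 0 (j + 1)
      · have h2 : ¬ x ∈ newp P 0 (j + 1) := fun h2 => hx ⟨j, hj, h1, h2⟩
        rw [ind_not h2, zero_mul, mul_zero]
      · rw [ind_not h1, zero_mul]
    rw [hz]
    exact zero_le

/-! ### the mean over the shell -/

lemma vol_shell (hd : 1 ≤ d) (u : Eu d) {e : ℝ} (he : 0 ≤ e) :
    volume {z : Eu d | Qr e u z} = ENNReal.ofReal ((1 + e) ^ d - 1) * volume (bal (0 : Eu d) 1) := by
  have h1 : {z : Eu d | Qr e u z} = Metric.closedBall u (1 + e) \ Metric.closedBall u 1 := by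
    ext z
    simp only [Qr, Set.mem_setOf_eq, Set.mem_sdiff, Metric.mem_closedBall, not_le]
    exact and_comm
  have hnt : Nontrivial (Eu d) := by
    have : Nonempty (Fin d) := ⟨⟨0, by omega⟩⟩
    infer_instance
  have hfr : Module.finrank ℝ (Eu d) = d := by simp
  rw [h1, measure_sdiff (Metric.closedBall_subset_closedBall (by linarith))
    Metric.isClosed_closedBall.measurableSet.nullMeasurableSet
    Metric.isBounded_closedBall.measure_lt_top.ne]
  have h2 : volume (Metric.closedBall u (1 + e)) =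
      ENNReal.ofReal ((1 + e) ^ d) * volume (bal (0 : Eu d) 1) := by
    rw [Measure.addHaar_closedBall' _ _ (by linarith), hfr]
    rfl
  have h3 : volume (Metric.closedBall u 1) = volume (bal (0 : Eu d) 1) := by
    rw [Measure.addHaar_closedBall' _ _ (by norm_num), hfr]
    simp [bal]
  rw [h2, h3, ENNReal.ofReal_sub _ (by norm_num), ENNReal.ofReal_one, ENNReal.sub_mul, one_mul]
  intro _ _
  exact Metric.isBounded_closedBall.measure_lt_top.ne

lemma meas_Q (e : ℝ) : MeasurableSet {q : Eu d × Eu d | Qr e q.1 q.2} := by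
  have h1 : Measurable fun q : Eu d × Eu d => dist q.2 q.1 := measurable_snd.dist measurable_fst
  exact (measurableSet_lt measurable_const h1).inter (measurableSet_le h1 measurable_const)

lemma mean_shell (hM : MeckeStatement) (hPr : ProbStatement) (hd : 1 ≤ d) (lam : ℝ≥0) (L e : ℝ)
    (F Fb : Eu d → ℝ≥0∞) (hF : Measurable F) (hFb : ∀ z u, dist z u ≤ 2 → F z ≤ Fb u)
    (he0 : 0 ≤ e) (he1 : e ≤ 1) (u : Eu d) :
    ∫⁻ ω, sh e F (pt ω) u ∂PL (leb lam (bal (0 : Eu d) L)) ≤
      lam * ENNReal.ofReal ((1 + e) ^ d - 1) * volume (bal (0 : Eu d) 1) * Fb u := by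
  have := finite_leb lam (dom_bal (0 : Eu d) L).2
  have := noAtoms_leb hd lam (bal (0 : Eu d) L)
  have := (hPr (Eu d) (leb lam (bal (0 : Eu d) L))).1
  have hQu : MeasurableSet {z : Eu d | Qr e u z} := by
    have : Measurable fun z : Eu d => (u, z) := measurable_const.prodMk measurable_id
    exact this (meas_Q e)
  have hg : Measurable fun z : Eu d => ind (Qr e u z) * F z := (measurable_ind hQu).mul hF
  have h1 := (hM (Eu d) (leb lam (bal (0 : Eu d) L)) (fun x _ => ind (Qr e u x) * F x)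
    (hg.comp measurable_fst)).1
  calc ∫⁻ ω, sh e F (pt ω) u ∂PL (leb lam (bal (0 : Eu d) L))
      = ∫⁻ x, ∫⁻ _ω, ind (Qr e u x) * F x ∂PL (leb lam (bal (0 : Eu d) L))
          ∂leb lam (bal (0 : Eu d) L) := h1
    _ = ∫⁻ x, ind (Qr e u x) * F x ∂leb lam (bal (0 : Eu d) L) := by
        simp only [lintegral_const, measure_univ, mul_one]
    _ ≤ ∫⁻ x, Fb u * ind (Qr e u x) ∂leb lam (bal (0 : Eu d) L) := by
        refine lintegral_mono fun x => ?_
        by_cases hx : Qr e u x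
        · simp only [ind_of hx, one_mul, mul_one]
          exact hFb x u (hx.2.trans (by linarith))
        · simp only [ind_not hx, zero_mul, mul_zero, le_refl]
    _ = Fb u * (lam * ∫⁻ x in bal (0 : Eu d) L, ind (Qr e u x)) := by
        rw [lintegral_const_mul _ (measurable_ind hQu), lintegral_leb]
    _ ≤ Fb u * (lam * volume {z : Eu d | Qr e u z}) := by
        gcongr
        rw [← lintegral_ind hQu]
        exact lintegral_mono' Measure.restrict_le_self le_rfl
    _ = _ := by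
        rw [vol_shell hd u he0]
        ring

/-! ### measurability -/

lemma meas_sh (hMS : MSumStatement) (e : ℝ) (F : Eu d → ℝ≥0∞) (hF : Measurable F) :
    Measurable fun q : Cfg (Eu d) × Eu d => sh e F (pt q.1) q.2 := by
  have h2 : Measurable fun q : Eu d × Eu d => ind (Qr e q.1 q.2) * F q.2 :=
    (measurable_ind (meas_Q e)).mul (hF.comp measurable_snd)
  have h3 : Measurable fun q : Eu d × Eu d × Cfg (Eu d) => (q.1, q.2.1) :=
    measurable_fst.prodMk (measurable_fst.comp measurable_snd)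
  have h4 : Measurable ((fun q : Eu d × Eu d => ind (Qr e q.1 q.2) * F q.2) ∘
      fun q : Eu d × Eu d × Cfg (Eu d) => (q.1, q.2.1)) := Measurable.comp h2 h3
  have h4' : Measurable fun q : Eu d × Eu d × Cfg (Eu d) => ind (Qr e q.1 q.2.1) * F q.2.1 := h4
  have h1 := hMS.1 (Eu d) (Eu d) (fun u x _ => ind (Qr e u x) * F x) h4'
  have h5 : Measurable fun q : Cfg (Eu d) × Eu d => (q.2, q.1) :=
    measurable_snd.prodMk measurable_fst
  exact h1.comp h5

lemma meas_fi (hMS : MSumStatement) (hIM : InvMStatement) (th : ℕ → ℝ) (e : ℝ)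
    (F : Eu d → ℝ≥0∞) (hF : Measurable F) (i : ℕ) :
    Measurable fun q : Cfg (Eu d) × Cfg (Eu d) => fi th e F i (pt q.1) (pt q.2) := by
  obtain ⟨-, -, -, h4, h5, -⟩ := hIM d i
  unfold fi
  refine Measurable.mul ?_ ?_
  · have h1 : Measurable fun q : Cfg (Eu d) × Cfg (Eu d) => ((0 : Eu d), q.1) :=
      measurable_const.prodMk measurable_fst
    exact measurable_ind (h1 (h4 th))
  · have h1 : Measurable fun q : Cfg (Eu d) × Cfg (Eu d) => (q.2, (0 : Eu d), q.1) :=
      measurable_snd.prodMk (measurable_const.prodMk measurable_fst)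
    exact (h5 (Cfg (Eu d)) (fun ω u => sh e F (pt ω) u) (meas_sh hMS e F hF)).comp h1

lemma meas_si (hMR : MRestrStatement) (hMS : MSumStatement) (hIM : InvMStatement) (th : ℕ → ℝ)
    (e : ℝ) (F : Eu d → ℝ≥0∞) (hF : Measurable F) (i : ℕ) :
    Measurable fun ω : Cfg (Eu d) =>
      fi th e F i (pt ω ∩ wet (pt ω) 0 i) (pt ω \ wet (pt ω) 0 i) := by
  have hstop := (hIM d i).2.2.2.2.2 0
  have hW : MeasurableSet {q : Cfg (Eu d) × Eu d | q.2 ∈ wet (pt q.1) 0 i} :=
    (measurable_snd.prodMk measurable_fst) hstop.meas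
  obtain ⟨r1, hr1, hr1'⟩ := hMR (Cfg (Eu d)) (Eu d) _ hW
  obtain ⟨r2, hr2, hr2'⟩ := hMR (Cfg (Eu d)) (Eu d) _ hW.compl
  have hdiag : Measurable fun ω : Cfg (Eu d) => (ω, ω) := measurable_id.prodMk measurable_id
  have h1 : Measurable fun ω : Cfg (Eu d) => (r1 (ω, ω), r2 (ω, ω)) :=
    (hr1.comp hdiag).prodMk (hr2.comp hdiag)
  have h2 := (meas_fi hMS hIM th e F hF i).comp h1
  have h3 : (fun ω : Cfg (Eu d) =>
      fi th e F i (pt ω ∩ wet (pt ω) 0 i) (pt ω \ wet (pt ω) 0 i)) =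
      (fun q : Cfg (Eu d) × Cfg (Eu d) => fi th e F i (pt q.1) (pt q.2)) ∘
        fun ω : Cfg (Eu d) => (r1 (ω, ω), r2 (ω, ω)) := by
    funext ω
    show _ = fi th e F i (pt (r1 (ω, ω))) (pt (r2 (ω, ω)))
    rw [hr1', hr2']
    rfl
  rw [h3]
  exact h2

/-! ### the statement -/

lemma mean_fi (hS : SmpStatement) (hM : MeckeStatement) (hPr : ProbStatement)
    (hMS : MSumStatement) (hI : InvDStatement) (hIM : InvMStatement) (hd : 1 ≤ d) (lam : ℝ≥0)
    (th : ℕ → ℝ) (L e : ℝ) (F Fb : Eu d → ℝ≥0∞) (hF : Measurable F)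
    (hFb : ∀ z u, dist z u ≤ 2 → F z ≤ Fb u) (hFbm : Measurable Fb)
    (he0 : 0 ≤ e) (he1 : e ≤ 1) (i : ℕ) :
    ∫⁻ ω, fi th e F i (pt ω ∩ wet (pt ω) 0 i) (pt ω \ wet (pt ω) 0 i)
        ∂PL (leb lam (bal (0 : Eu d) L)) ≤
      (lam * ENNReal.ofReal ((1 + e) ^ d - 1) * volume (bal (0 : Eu d) 1)) *
        ∫⁻ ω, ind (good th (pt ω) 0 i) * nnew (pt ω) 0 i Fb ∂PL (leb lam (bal (0 : Eu d) L)) := by
  have := finite_leb lam (dom_bal (0 : Eu d) L).2
  have := noAtoms_leb hd lam (bal (0 : Eu d) L)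
  have := (hPr (Eu d) (leb lam (bal (0 : Eu d) L))).1
  set ρ := leb lam (bal (0 : Eu d) L) with hρ
  set K := lam * ENNReal.ofReal ((1 + e) ^ d - 1) * volume (bal (0 : Eu d) 1) with hK
  have hstop := (hIM d i).2.2.2.2.2 0
  rw [hS (Eu d) ρ (fun P => wet P 0 i) (fi th e F i) hstop (meas_fi hMS hIM th e F hF i)]
  have hmeasR : Measurable fun ω : Cfg (Eu d) => ind (good th (pt ω) 0 i) *
      nnew (pt ω) 0 i Fb := by
    obtain ⟨-, -, -, h4, h5, -⟩ := hIM d i
    have g1 : Measurable fun ω : Cfg (Eu d) => ((0 : Eu d), ω) :=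
      measurable_const.prodMk measurable_id
    have g2 : Measurable fun ω : Cfg (Eu d) => ((), (0 : Eu d), ω) :=
      measurable_const.prodMk g1
    exact (measurable_ind (g1 (h4 th))).mul
      ((h5 Unit (fun _ u => Fb u) (hFbm.comp measurable_snd)).comp g2)
  rw [← lintegral_const_mul _ hmeasR]
  refine lintegral_mono fun ω => ?_
  set A := pt ω ∩ wet (pt ω) 0 i with hA
  have hAfin : A.Finite := (pt_finite ω).subset Set.inter_subset_left
  have hcount : Countable (newp A 0 i) := by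
    have h1 : (newp A 0 i).Finite := by
      obtain ⟨hI1, -⟩ := hI d A A 0 (lf_of_finite hAfin) (lf_of_finite hAfin)
      cases i with
      | zero => exact Set.finite_singleton _
      | succ i => exact (hI1 (i + 1)).2.2.subset Set.sdiff_subset
    exact h1.countable
  have hmsh : ∀ u, Measurable fun ω' : Cfg (Eu d) => sh e F (pt ω') u := by
    intro u
    have g : Measurable fun ω' : Cfg (Eu d) => (ω', u) := measurable_id.prodMk measurable_const
    exact (meas_sh hMS e F hF).comp g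
  calc ∫⁻ ω', fi th e F i A (pt ω' \ wet (pt ω) 0 i) ∂PL ρ
      ≤ ∫⁻ ω', ind (good th A 0 i) * ∑' u : newp A 0 i, sh e F (pt ω') u ∂PL ρ := by
        refine lintegral_mono fun ω' => ?_
        unfold fi
        gcongr
        exact nnew_mono A 0 i fun u => sh_mono e F Set.sdiff_subset u
    _ = ind (good th A 0 i) * ∑' u : newp A 0 i, ∫⁻ ω', sh e F (pt ω') u ∂PL ρ := by
        rw [lintegral_const_mul _ (Measurable.ennreal_tsum fun u : newp A 0 i => hmsh (u : Eu d)),
          lintegral_tsum fun u : newp A 0 i => (hmsh (u : Eu d)).aemeasurable]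
    _ ≤ ind (good th A 0 i) * ∑' u : newp A 0 i, K * Fb u := by
        gcongr with u
        exact mean_shell hM hPr hd lam L e F Fb hF hFb he0 he1 u
    _ = K * (ind (good th A 0 i) * nnew A 0 i Fb) := by
        rw [ENNReal.tsum_mul_left]
        unfold nnew
        ring
    _ = K * (ind (good th (pt ω) 0 i) * nnew (pt ω) 0 i Fb) := by
        rw [hA, fi_loc hI th i (pt_finite ω)]

/-- superadditivity of the integral -/
lemma sum_lint_le {α : Type*} [MeasurableSpace α] (μ : Measure α) (s : Finset ℕ)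
    (f : ℕ → α → ℝ≥0∞) : ∑ j ∈ s, ∫⁻ x, f j x ∂μ ≤ ∫⁻ x, ∑ j ∈ s, f j x ∂μ := by
  classical
  induction s using Finset.induction_on with
  | empty => simp
  | insert a s ha ih =>
    rw [Finset.sum_insert ha]
    calc _ ≤ ∫⁻ x, f a x ∂μ + ∫⁻ x, ∑ j ∈ s, f j x ∂μ := by gcongr
      _ ≤ ∫⁻ x, (f a x + ∑ j ∈ s, f j x) ∂μ := le_lintegral_add _ _
      _ = _ := by
          refine lintegral_congr fun x => ?_
          rw [Finset.sum_insert ha]

/-- Module SHEL. -/
theorem shel (hS : SmpStatement) (hM : MeckeStatement) (hI : InvDStatement)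
    (hIM : InvMStatement) (hPr : ProbStatement) (hMR : MRestrStatement)
    (hMS : MSumStatement) : ShelStatement := by
  intro d lam th L e a b F Fb hd hF hFbm hFb he0 he1 hth
  have := finite_leb lam (dom_bal (0 : Eu d) L).2
  have := noAtoms_leb hd lam (bal (0 : Eu d) L)
  set ρ := leb lam (bal (0 : Eu d) L) with hρ
  have h0 : ∀ᵐ ω ∂PL ρ, (0 : Eu d) ∉ pt ω := by
    have h1 := (hPr (Eu d) ρ).2 {0} (measurableSet_singleton _) (measure_singleton _)
    filter_upwards [h1] with ω hω h2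
    exact hω 0 h2 rfl
  calc ∑ j ∈ Finset.Ico a b, ∫⁻ ω, ind (att (pt ω) 0 (j + 1) ∧ good th (pt ω) 0 (j + 1)) *
        nnew (pt ω) 0 (j + 1) F ∂PL ρ
      ≤ ∫⁻ ω, ∑ j ∈ Finset.Ico a b, ind (att (pt ω) 0 (j + 1) ∧ good th (pt ω) 0 (j + 1)) *
          nnew (pt ω) 0 (j + 1) F ∂PL ρ := sum_lint_le _ _ _
    _ ≤ ∫⁻ ω, ∑ i ∈ Finset.range b,
          fi th e F i (pt ω ∩ wet (pt ω) 0 i) (pt ω \ wet (pt ω) 0 i) ∂PL ρ := by
        refine lintegral_mono_ae ?_
        filter_upwards [h0] with ω hω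
        exact det hI th e F a b he0 hth (pt_finite ω) hω
    _ = ∑ i ∈ Finset.range b, ∫⁻ ω,
          fi th e F i (pt ω ∩ wet (pt ω) 0 i) (pt ω \ wet (pt ω) 0 i) ∂PL ρ :=
        lintegral_finsetSum _ fun i _ => meas_si hMR hMS hIM th e F hF i
    _ ≤ ∑ i ∈ Finset.range b, (lam * ENNReal.ofReal ((1 + e) ^ d - 1) *
          volume (bal (0 : Eu d) 1)) *
          ∫⁻ ω, ind (good th (pt ω) 0 i) * nnew (pt ω) 0 i Fb ∂PL ρ :=
        Finset.sum_le_sum fun i _ =>
          mean_fi hS hM hPr hMS hI hIM hd lam th L e F Fb hF hFb hFbm he0 he1 i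
    _ = (lam * ENNReal.ofReal ((1 + e) ^ d - 1) * volume (bal (0 : Eu d) 1)) *
          ∑ i ∈ Finset.range b,
            ∫⁻ ω, ind (good th (pt ω) 0 i) * nnew (pt ω) 0 i Fb ∂PL ρ := by
        rw [Finset.mul_sum]
    _ ≤ _ := by
        gcongr
        exact sum_lint_le _ _ _

end Pool.Agent.Lib.MP_5349a4_pr.H15.Shel
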